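import Pool.Agent.Helper80.EC_F.Goals

/-! Packet SUMA: absolute convergence of the lattice sums. -/

set_option autoImplicit false

open MeasureTheory Filter Topology Set

namespace EC237

namespace PF

namespace PkSUMA

/-- sup norm of a lattice point -/
noncomputable def mx (k : ℤ × ℤ) : ℝ := max |(k.1:ℝ)| |(k.2:ℝ)|

theorem mx_nonneg (k : ℤ × ℤ) : 0 ≤ mx k := le_max_of_le_left (abs_nonneg _)

theorem summable_mx : Summable (fun k : ℤ × ℤ => (mx k ^ 3)⁻¹) := by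
  have h := EisensteinSeries.summable_one_div_norm_rpow (k := 3) (by norm_num)
  rw [← (finTwoArrowEquiv ℤ).symm.summable_iff] at h
  refine h.congr fun k => ?_
  simp only [Function.comp_def, finTwoArrowEquiv_symm_apply]
  rw [EisensteinSeries.norm_eq_max_natAbs, Real.rpow_neg (by positivity)]
  congr 1
  rw [show (3:ℝ) = ((3:ℕ):ℝ) by norm_num, Real.rpow_natCast]
  congr 1
  unfold mx
  simp only [Matrix.cons_val_zero, Matrix.cons_val_one]
  push_cast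
  rw [Nat.cast_natAbs, Nat.cast_natAbs]
  push_cast
  rfl

theorem one_le_mx {k : ℤ × ℤ} (hk : k ≠ 0) : 1 ≤ mx k := by
  unfold mx
  by_cases h1 : k.1 = 0
  · have h2 : k.2 ≠ 0 := fun h2 => hk (Prod.ext h1 h2)
    refine le_max_of_le_right ?_
    have := Int.one_le_abs h2
    exact_mod_cast this
  · refine le_max_of_le_left ?_
    have := Int.one_le_abs h1
    exact_mod_cast this

theorem Nn_ge {y : ℝ} (hy : 0 < y) (k : ℤ × ℤ) : min 1 (y ^ 2) * mx k ^ 2 ≤ Nn y k := by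
  have hc1 : min 1 (y ^ 2) ≤ 1 := min_le_left _ _
  have hc2 : min 1 (y ^ 2) ≤ y ^ 2 := min_le_right _ _
  have hc0 : 0 < min 1 (y ^ 2) := lt_min one_pos (by positivity)
  unfold Nn mx
  rcases max_cases |(k.1:ℝ)| |(k.2:ℝ)| with ⟨h, _⟩ | ⟨h, _⟩
  · rw [h, sq_abs]
    have h1 : min 1 (y ^ 2) * (k.1:ℝ) ^ 2 ≤ 1 * (k.1:ℝ) ^ 2 :=
      mul_le_mul_of_nonneg_right hc1 (sq_nonneg _)
    have h2 : 0 ≤ (k.2:ℝ) ^ 2 * y ^ 2 := by positivity
    linarith
  · rw [h, sq_abs]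
    have h1 : min 1 (y ^ 2) * (k.2:ℝ) ^ 2 ≤ y ^ 2 * (k.2:ℝ) ^ 2 :=
      mul_le_mul_of_nonneg_right hc2 (sq_nonneg _)
    have h2 : 0 ≤ (k.1:ℝ) ^ 2 := by positivity
    linarith

theorem bound1 {y : ℝ} (hy : 0 < y) (k : ℤ × ℤ) :
    |(k.2:ℝ)| * y ^ 2 / Nn y k ^ 2 ≤ (y ^ 2 / min 1 (y ^ 2) ^ 2) * (mx k ^ 3)⁻¹ := by
  have hc0 : 0 < min 1 (y ^ 2) := lt_min one_pos (by positivity)
  by_cases hk : k = 0
  · subst hk
    simp [mx]
  have hm := one_le_mx hk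
  have hm0 : 0 < mx k := by linarith
  have hN := Nn_ge hy k
  have hN0 : 0 < min 1 (y ^ 2) * mx k ^ 2 := by positivity
  have hle : |(k.2:ℝ)| ≤ mx k := le_max_right _ _
  have hN2 : (min 1 (y ^ 2) * mx k ^ 2) ^ 2 ≤ Nn y k ^ 2 := pow_le_pow_left₀ hN0.le hN 2
  calc |(k.2:ℝ)| * y ^ 2 / Nn y k ^ 2
      ≤ mx k * y ^ 2 / (min 1 (y ^ 2) * mx k ^ 2) ^ 2 := by
        apply div_le_div₀ (by positivity) _ (by positivity) hN2
        exact mul_le_mul_of_nonneg_right hle (by positivity)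
    _ = (y ^ 2 / min 1 (y ^ 2) ^ 2) * (mx k ^ 3)⁻¹ := by
        field_simp

theorem bound2 {y : ℝ} (hy : 0 < y) (k : ℤ × ℤ) :
    |(k.2:ℝ)| * y ^ 2 * (10 * (k.1:ℝ) ^ 2 + 2 * (k.2:ℝ) ^ 2 * y ^ 2) / Nn y k ^ 4 ≤
      (10 * y ^ 2 / min 1 (y ^ 2) ^ 3) * (mx k ^ 3)⁻¹ := by
  have hc0 : 0 < min 1 (y ^ 2) := lt_min one_pos (by positivity)
  by_cases hk : k = 0
  · subst hk
    simp [mx]
  have hm := one_le_mx hk
  have hm0 : 0 < mx k := by linarith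
  have hN := Nn_ge hy k
  have hN0 : 0 < min 1 (y ^ 2) * mx k ^ 2 := by positivity
  have hNp : 0 < Nn y k := hN0.trans_le hN
  have hle : |(k.2:ℝ)| ≤ mx k := le_max_right _ _
  have hN3 : (min 1 (y ^ 2) * mx k ^ 2) ^ 3 ≤ Nn y k ^ 3 := pow_le_pow_left₀ hN0.le hN 3
  have hq : 10 * (k.1:ℝ) ^ 2 + 2 * (k.2:ℝ) ^ 2 * y ^ 2 ≤ 10 * Nn y k := by
    unfold Nn
    have : 0 ≤ (k.2:ℝ) ^ 2 * y ^ 2 := by positivity
    linarith
  calc |(k.2:ℝ)| * y ^ 2 * (10 * (k.1:ℝ) ^ 2 + 2 * (k.2:ℝ) ^ 2 * y ^ 2) / Nn y k ^ 4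
      ≤ |(k.2:ℝ)| * y ^ 2 * (10 * Nn y k) / Nn y k ^ 4 := by
        apply div_le_div_of_nonneg_right _ (by positivity)
        exact mul_le_mul_of_nonneg_left hq (by positivity)
    _ = 10 * (|(k.2:ℝ)| * y ^ 2) / Nn y k ^ 3 := by
        field_simp
    _ ≤ 10 * (mx k * y ^ 2) / (min 1 (y ^ 2) * mx k ^ 2) ^ 3 := by
        apply div_le_div₀ (by positivity) _ (by positivity) hN3
        have := mul_le_mul_of_nonneg_right hle (by positivity : 0 ≤ y ^ 2)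
        linarith
    _ = (10 * y ^ 2 / min 1 (y ^ 2) ^ 3) * (mx k ^ 5)⁻¹ := by
        field_simp
    _ ≤ (10 * y ^ 2 / min 1 (y ^ 2) ^ 3) * (mx k ^ 3)⁻¹ := by
        apply mul_le_mul_of_nonneg_left _ (by positivity)
        apply inv_anti₀ (by positivity)
        exact pow_le_pow_right₀ hm (by norm_num)

theorem thm : G_SUMA := by
  intro y hy
  constructor
  · refine Summable.of_nonneg_of_le (fun k => ?_) (bound1 hy) (summable_mx.mul_left _)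
    positivity
  · refine Summable.of_nonneg_of_le (fun k => ?_) (bound2 hy) (summable_mx.mul_left _)
    have : 0 ≤ Nn y k ^ 4 := by positivity
    positivity

end PkSUMA

end PF

end EC237
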